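import Mathlib
import Pool.Agent.N423.DC.AllT

/-!
# Implied nonedges of graphs whose closure has a dominating clique

Every pair of nonadjacent vertices that is implied in the generic `3`-dimensional rigidity matroid
is contained in a complete graph with five vertices of the closure, if the closure has a nonempty
clique `R` such that every other vertex has a neighbour in `R` in the closure.

The proof (`Pool.Agent.N423.DT.t_k5t`): let `f` be an edge of a closed graph of this kind that is
implied by the other edges, and take a minimal subgraph in which `f` is implied (and in which `R` is
a clique and every other vertex has a neighbour in `R`). A vertex of degree at most four can be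
removed. If there is none, all vertices outside of `R` have degree five and exactly one neighbour in
`R`, there is one degree of freedom, an exchange argument shows that the subgraph is closed, and
this is impossible (`Pool.Agent.N423.DC.t_core`).

Paper proof and assembly: helper423. Lean parts: helpers 233, 360, 578, 803, and, for
`Pool.Agent.N423.DC.t_core`, helpers 222, 401, 519, 232, 499, 787, 441, 286, 51, 879, 221, 935, 697,
495, 273, 492, 596, 368, 27, 55, 559, 50, 407, 433, 654, 723, 475, 768.
-/

set_option autoImplicit false

namespace Pool.Agent.Results.MP_071ace_co.DominatingClique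

open Pool.Agent.H283R2.DR Pool.Agent.H789R5 Pool.Agent.N423.DE Pool.Agent.N423.DC
  Pool.Agent.N423.DT

/-- The closure `CL(G)` of the graph `G` in the generic `3`-dimensional rigidity matroid: two
different vertices are adjacent if the edge between them does not increase the rank. -/
def closure {V : Type} [Fintype V] (G : SimpleGraph V) : SimpleGraph V where
  Adj u v := u ≠ v ∧ genRank 3 (G ⊔ SimpleGraph.edge u v) = genRank 3 G
  symm := ⟨fun u v h => ⟨h.1.symm, by rw [SimpleGraph.edge_comm]; exact h.2⟩⟩
  loopless := ⟨fun _ h => h.1 rfl⟩

/-- **Implied nonedges avoiding `K_5`.** Let `G` be a finite graph whose closure in the generic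
`3`-dimensional rigidity matroid has a nonempty clique `R` such that each other vertex is adjacent
in the closure to some vertex of `R`. Then each implied nonedge of `G` lies in a complete graph with
five vertices of the closure. So the classes `𝒞_1`, `𝒞_3` and `𝒞_4` do not contain such graphs (for
example, graphs with a dominating clique, or with a generically rigid subgraph such that each
vertex has a neighbour in it). -/
theorem result (V : Type) [Fintype V] (G : SimpleGraph V) (R : Finset V) (hR : R.Nonempty)
    (hclique : (closure G).IsClique R) (hdom : ∀ v, v ∉ R → ∃ r ∈ R, (closure G).Adj v r)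
    (u v : V) (huv : (closure G).Adj u v) (hn : ¬ G.Adj u v) :
    ∃ A : Finset V, A.card = 5 ∧ u ∈ A ∧ v ∈ A ∧ (closure G).IsClique A := by
  classical
  obtain ⟨p, hp⟩ := exists_mg V 3
  have hLH : LHub G R := by
    refine ⟨fun a ha b hb hab => (hclique ha hb hab).2, fun v hv => ?_⟩
    obtain ⟨r, hr, h⟩ := hdom v hv
    exact ⟨r, hr, h.2⟩
  obtain ⟨A, hA, huA, hvA, hAl⟩ := five t_seq hp hR hLH huv.1 huv.2 hn
  exact ⟨A, hA, huA, hvA, fun a ha b hb hab => ⟨hab, hAl a ha b hb hab⟩⟩

end Pool.Agent.Results.MP_071ace_co.DominatingClique
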